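import Pool.Agent.helper47.SC.Spec

-- Row sc:MCH of MP_0015b7_an: choice of the exponents.

open scoped Topology ContDiff
open Set Filter Metric MeasureTheory

namespace Pool.Agent.SC

theorem MCH_rec (Q : ℕ → (ℕ → ℕ) → ℕ → Prop) (hQ : ∀ k f, ∃ N, Q k f N)
    (hc : ∀ k f g N, (∀ j < k, f j = g j) → Q k f N → Q k g N) :
    ∃ M : ℕ → ℕ, ∀ k, Q k M (M k) := by
  classical
  choose F hF using hQ
  let L : ℕ → (ℕ → ℕ) := fun k => Nat.rec (fun _ => 0) (fun n f => Function.update f n (F n f)) k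
  have hL : ∀ k, L (k + 1) = Function.update (L k) k (F k (L k)) := fun k => rfl
  let M : ℕ → ℕ := fun k => L (k + 1) k
  have hM : ∀ k, M k = F k (L k) := by
    intro k
    show L (k + 1) k = _
    rw [hL, Function.update_self]
  have hlt : ∀ k j, j < k → L k j = M j := by
    intro k
    induction k with
    | zero => intro j hj; exact absurd hj (Nat.not_lt_zero _)
    | succ n ih =>
      intro j hj
      rcases Nat.lt_succ_iff_lt_or_eq.1 hj with h | h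
      · rw [hL, Function.update_of_ne h.ne, ih j h]
      · subst h; rfl
  refine ⟨M, fun k => ?_⟩
  rw [hM k]
  exact hc k (L k) M _ (fun j hj => hlt k j hj) (hF k (L k))

theorem MCH (h1 : GGB_stmt) (h2 : POW_stmt) : MCH_stmt := by
  intro s m hm hs
  have hB : ∀ k, ContDiff ℂ ∞ (BB s m k) := (h1 s m hm hs).2.2.2.2.2.2.1
  -- the conditions
  obtain ⟨M, hM⟩ := MCH_rec (fun k f N =>
    ((k : ℝ) + 2 + ∑ j ∈ Finset.range k, (8 * ((k : ℝ) + 1) ^ (EE m (j + 1))) ^ (f j) ≤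
      (3 / 2) ^ N) ∧ ((3 / 4 : ℝ) ^ N ≤ (1 / 2) ^ (k + 2)) ∧
    (∀ c : ℂ, c = 1 ∨ c = 8 → ∀ j : ℕ, j ≤ k → ∀ p : C2, ‖p.1‖ ≤ k → ‖p.2‖ ≤ 1 →
      8 * ‖BB s m k p‖ ≤ 3 / 4 →
        ‖iteratedFDeriv ℂ j (fun q : C2 => (c * BB s m k q) ^ N) p‖ ≤ (1 / 2) ^ k)) (by
    intro k f
    have e1 : ∀ᶠ N : ℕ in atTop, ((k : ℝ) + 2 + ∑ j ∈ Finset.range k,
        (8 * ((k : ℝ) + 1) ^ (EE m (j + 1))) ^ (f j) ≤ (3 / 2 : ℝ) ^ N) :=
      (tendsto_pow_atTop_atTop_of_one_lt (by norm_num)).eventually_ge_atTop _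
    have e2 : ∀ᶠ N : ℕ in atTop, ((3 / 4 : ℝ) ^ N ≤ (1 / 2) ^ (k + 2)) := by
      have h := tendsto_pow_atTop_nhds_zero_of_lt_one (r := (3 / 4 : ℝ)) (by norm_num)
        (by norm_num)
      exact h.eventually_le_const (by positivity)
    have hK : IsCompact ((closedBall (0 : ℂ) k) ×ˢ (closedBall (0 : ℂ) 1)) :=
      (isCompact_closedBall _ _).prod (isCompact_closedBall _ _)
    have e3 : ∀ c : ℂ, c = 1 ∨ c = 8 → ∀ᶠ N : ℕ in atTop, ∀ j ≤ k,
        ∀ p ∈ (closedBall (0 : ℂ) k) ×ˢ (closedBall (0 : ℂ) 1), ‖c * BB s m k p‖ ≤ 3 / 4 →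
        ‖iteratedFDeriv ℂ j (fun q : C2 => (c * BB s m k q) ^ N) p‖ ≤ (1 / 2) ^ k := by
      intro c _
      exact h2 (fun q => c * BB s m k q) (contDiff_const.mul (hB k)) _ hK (3 / 4) (by norm_num)
        (by norm_num) k ((1 / 2) ^ k) (by positivity)
    obtain ⟨N, hN1, hN2, hN3, hN4⟩ :=
      (e1.and (e2.and ((e3 1 (Or.inl rfl)).and (e3 8 (Or.inr rfl))))).exists
    refine ⟨N, hN1, hN2, ?_⟩
    intro c hc j hj p hp1 hp2 hp3
    have hpK : p ∈ (closedBall (0 : ℂ) k) ×ˢ (closedBall (0 : ℂ) 1) := by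
      refine ⟨?_, ?_⟩
      · rw [mem_closedBall_zero_iff]; exact hp1
      · rw [mem_closedBall_zero_iff]; exact hp2
    have hn : 0 ≤ ‖BB s m k p‖ := norm_nonneg _
    rcases hc with rfl | rfl
    · refine hN3 j hj p hpK ?_
      rw [one_mul]; linarith
    · refine hN4 j hj p hpK ?_
      rw [norm_mul]
      have : ‖(8 : ℂ)‖ = 8 := by norm_num
      rw [this]; exact hp3) (by
    rintro k f g N hfg ⟨a, b, c⟩
    refine ⟨?_, b, c⟩
    have : ∑ j ∈ Finset.range k, (8 * ((k : ℝ) + 1) ^ (EE m (j + 1))) ^ (g j) =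
        ∑ j ∈ Finset.range k, (8 * ((k : ℝ) + 1) ^ (EE m (j + 1))) ^ (f j) :=
      Finset.sum_congr rfl (fun j hj => by rw [hfg j (Finset.mem_range.1 hj)])
    rw [this]
    exact a)
  exact ⟨M, ⟨fun k => (hM k).1, fun k => (hM k).2.1, fun c hc k j hj p h3 h4 h5 =>
    (hM k).2.2 c hc j hj p h3 h4 h5⟩⟩

end Pool.Agent.SC
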