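import Pool.Agent.helper82.SC.SpecB

/-!
# sp: Cardy part, PD: the lower right corner splits the sector 0
-/

namespace Pool.Agent.helper82.SC

open Relation Filter Topology

theorem PD_sec {n : ℕ} {v : V} (hv : v ∉ Usq n) (hs : secsq n v = 0) (h : 0 ≤ v.2) :
    2 * (n : ℤ) < 2 * v.1 + v.2 := by
  rw [mem_Usq] at hv
  unfold secsq at hs
  rw [if_neg (by omega)] at hs
  by_cases h1 : (top n : ℤ) < v.2
  · rw [if_pos h1] at hs
    exact absurd hs (by decide)
  · rw [if_neg h1] at hs
    by_cases h2 : 2 * v.1 + v.2 < 0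
    · rw [if_pos h2] at hs
      exact absurd hs (by decide)
    · by_contra h3
      exact hv ⟨h, by omega, by omega, by omega⟩

theorem PD : PD_stmt := by
  intro n D hn hD
  obtain ⟨hU, hsec, ha⟩ := hD
  have hS2 : S (zD n).1 (zD n).2 = ((n : ℤ) + 1, -1) := by simp [zD, S]
  have hS0 : S (zD n).1 ((zD n).2 + 1) = ((n : ℤ) + 1, 0) := by simp [zD, S]
  refine ⟨⟨1, ?_⟩, ?_, ?_, ?_, ?_, ?_, ?_, ?_, ?_⟩
  · rw [hU, mem_Usq]
    simp [zD, S]
  · rw [hU, mem_Usq, hS2]
    simp
  · rw [hU, mem_Usq, hS0]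
    simp
  · rw [hsec, hS2]
    simp [secsq]
  · rw [hsec, hS0]
    simp only [secsq]
    rw [if_neg (by norm_num), if_neg (by omega), if_neg (by omega)]
  · intro x hF h1 h2 s1 s2
    by_cases hx : x = zD n
    · subst hx
      rw [if_pos rfl, hS2, hS0]
      simp [partD]
    · rw [if_neg hx]
      rw [hsec] at s1 s2
      rw [hU] at h1 h2
      have key : (S x.1 x.2).2 < 0 ↔ (S x.1 (x.2 + 1)).2 < 0 := by
        obtain ⟨e, he⟩ := hF
        rw [hU] at he
        have p1 := PD_sec h1 s1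
        have p2 := PD_sec h2 s2
        have he' := (mem_Usq n _).1 he
        obtain ⟨⟨⟨i, j⟩, b⟩, d⟩ := x
        cases b <;> fin_cases d <;> fin_cases e <;> simp [S, zD] at * <;> omega
      unfold partD
      by_cases h3 : (S x.1 x.2).2 < 0
      · rw [if_pos h3, if_pos (key.1 h3)]
        decide
      · rw [if_neg h3, if_neg (fun h => h3 (key.2 h))]
        decide
  · rw [hS2]
    simp [partD]
  · rw [ha]
    simp [asq, S, partD]
  · rw [ha]
    simp [asq, S, partD]

end Pool.Agent.helper82.SC
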